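import Pool.Agent.R322.ImAxis

/-!
# Zeros of Miller basis forms on the imaginary axis

For every weight `k = 12 ℓ + k'` (`k' ∈ {0, 4, 6, 8, 10, 14}`) and every `0 ≤ m ≤ ℓ` the Faber polynomial
of the Miller basis form `f_{k,m} = q^m + O(q^{ℓ+1})` has no zero in `[1728, ∞)`, and `f_{k,m}` has no
zero on the imaginary axis other than the zero at `i` coming from `E_{k'}`, `k' ∈ {6, 10, 14}`.

Idea: the coefficient of `(x - 1728)^i` in the Faber polynomial is the coefficient of `q^{-m}` in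
`Δ^{i-ℓ} E₄² E₆^{-2i-1} / E_{k'}`, and this Laurent series has nonnegative coefficients.
-/

set_option autoImplicit false

open UpperHalfPlane hiding I
open Filter Topology EisensteinSeries ModularForm MatrixGroups

namespace Pool.Agent.Results.MP_e05153_nt.NoZerosImaginaryAxis

/-- The `j`-invariant `j = E₄³ / Δ`. -/
noncomputable def jInv (τ : ℍ) : ℂ := E₄ τ ^ 3 / ModularForm.discriminant τ

/-- The form `E_{k'}` for `k' ∈ {0, 4, 6, 8, 10, 14}`:
`E_0 = 1`, `E_4`, `E_6`, `E_8 = E_4²`, `E_{10} = E_4 E_6`, `E_{14} = E_4² E_6`. -/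
noncomputable def Ek (k' : ℕ) (τ : ℍ) : ℂ :=
  if k' = 0 then 1
  else if k' = 4 then E₄ τ
  else if k' = 6 then E₆ τ
  else if k' = 8 then E₄ τ ^ 2
  else if k' = 10 then E₄ τ * E₆ τ
  else E₄ τ ^ 2 * E₆ τ

/-- `f` is the Miller basis form `f_{k,m}` of weight `k = 12 ℓ + k'`: a modular form of weight `k` for
`SL₂(ℤ)` with `q`-expansion `q^m + O(q^{ℓ+1})`. -/
def IsMiller (k' ℓ m : ℕ) (f : ModularForm 𝒮ℒ ((12 * ℓ + k' : ℕ) : ℤ)) : Prop :=
  ∀ i ≤ ℓ, (qExpansion 1 f).coeff i = if i = m then 1 else 0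

/-- `F` is a polynomial with `f = Δ^ℓ E_{k'} F(j)` on the upper half plane. -/
def IsFaber (k' ℓ : ℕ) (f : ModularForm 𝒮ℒ ((12 * ℓ + k' : ℕ) : ℤ)) (F : Polynomial ℂ) : Prop :=
  ∀ τ : ℍ, f τ = ModularForm.discriminant τ ^ ℓ * Ek k' τ * F.eval (jInv τ)

open Pool.Agent.R322.QD

lemma Ek_eq (α β : ℕ) (hα : α ≤ 2) (hβ : β ≤ 1) (τ : ℍ) :
    Ek (4 * α + 6 * β) τ = E₄ τ ^ α * E₆ τ ^ β := by
  unfold Ek
  interval_cases α <;> interval_cases β <;> simp

/-- inverse of the series of `E₄` -/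
noncomputable def g4 : PowerSeries ℂ := e4⁻¹

lemma e4_mul_g4 : e4 * g4 = 1 := by
  unfold g4
  apply PowerSeries.mul_inv_cancel
  rw [← PowerSeries.coeff_zero_eq_constantCoeff_apply, e4_coeff_zero]
  exact one_ne_zero

lemma inv_series (α β : ℕ) (hα : α ≤ 2) :
    (e4 ^ α * e6 ^ β) * (g4 ^ α * g6 ^ β) = 1 ∧ NN1 (e4 ^ 2 * (g4 ^ α * g6 ^ β)) := by
  have h1 : ∀ n, e4 ^ n * g4 ^ n = 1 := fun n => by rw [← mul_pow, e4_mul_g4, one_pow]
  have h2 : ∀ n, e6 ^ n * g6 ^ n = 1 := fun n => by rw [← mul_pow, e6_mul_g6, one_pow]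
  refine ⟨?_, ?_⟩
  · calc (e4 ^ α * e6 ^ β) * (g4 ^ α * g6 ^ β) = (e4 ^ α * g4 ^ α) * (e6 ^ β * g6 ^ β) := by ring
      _ = 1 := by rw [h1, h2, one_mul]
  · have e : e4 ^ 2 * (g4 ^ α * g6 ^ β) = e4 ^ (2 - α) * g6 ^ β := by
      have h3 : e4 ^ 2 = e4 ^ (2 - α) * e4 ^ α := by rw [← pow_add]; congr 1; omega
      calc e4 ^ 2 * (g4 ^ α * g6 ^ β) = e4 ^ (2 - α) * (e4 ^ α * g4 ^ α) * g6 ^ β := by
            rw [h3]; ring
        _ = _ := by rw [h1, mul_one]
    rw [e]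
    exact (NN1_e4.pow _).mul (NN1_g6.pow _)

/-- The coefficients of a Miller form. -/
lemma miller_coeff (α β : ℕ) (hα : α ≤ 2) (hβ : β ≤ 1) (ℓ m : ℕ)
    (f : ModularForm 𝒮ℒ ((12 * ℓ + (4 * α + 6 * β) : ℕ) : ℤ)) (hf : IsMiller (4 * α + 6 * β) ℓ m f) :
    ∃ a : ℕ → ℂ, (∀ τ : ℍ, f τ = E₄ τ ^ α * E₆ τ ^ β *
        ∑ i ∈ Finset.range (ℓ + 1), a i * (E₆ τ ^ (2 * i) * ModularForm.discriminant τ ^ (ℓ - i))) ∧
      (∀ i, m + i ≤ ℓ → ∃ r : ℝ, 0 < r ∧ a i = (r : ℂ)) ∧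
      (∀ i ≤ ℓ, ℓ < m + i → a i = 0) ∧ (∀ i, m + i = ℓ → a i = 1) := by
  obtain ⟨a, ha⟩ := structure_form α β hα hβ ℓ f
  obtain ⟨hinv, hNN⟩ := inv_series α β hα
  have hq := qExpansion_of_structure α β ℓ f a ha
  have hP : ∀ i ≤ ℓ, ((e4 ^ α * e6 ^ β) *
      ∑ j ∈ Finset.range (ℓ + 1), PowerSeries.C (a j) * (e6 ^ (2 * j) * dl ^ (ℓ - j))).coeff i
      = if i = m then 1 else 0 := by
    intro i hi
    rw [← hq]
    exact hf i hi
  have hex := extraction (e4 ^ α * e6 ^ β) (g4 ^ α * g6 ^ β) hinv ℓ m a hP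
  refine ⟨a, ha, fun i hi => ?_, fun i hi hlt => ?_, fun i hi => ?_⟩
  · obtain ⟨r, hr, hr'⟩ := coeff_pos (g4 ^ α * g6 ^ β) hNN ℓ m i hi
    exact ⟨r, hr, by rw [hex i (by omega)]; exact hr'⟩
  · rw [hex i hi]
    exact coeff_zero_of_lt _ ℓ m i hlt
  · rw [hex i (by omega)]
    exact coeff_top _ hNN ℓ m i hi

/-- Existence and uniqueness of the Miller form. -/
lemma miller_unique (α β : ℕ) (hα : α ≤ 2) (hβ : β ≤ 1) (ℓ m : ℕ) :
    ∃! f : ModularForm 𝒮ℒ ((12 * ℓ + (4 * α + 6 * β) : ℕ) : ℤ), IsMiller (4 * α + 6 * β) ℓ m f := by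
  set L : ModularForm 𝒮ℒ ((12 * ℓ + (4 * α + 6 * β) : ℕ) : ℤ) →ₗ[ℂ] (Fin (ℓ + 1) → ℂ) :=
    { toFun := fun f i => (qExpansion 1 f).coeff (i : ℕ)
      map_add' := by
        intro f g
        funext i
        rw [FunLike.coe_add, ModularForm.qExpansion_add one_pos one_mem_strictPeriods_SL, map_add]
        rfl
      map_smul' := by
        intro c f
        funext i
        rw [FunLike.coe_smul, ModularForm.qExpansion_smul one_pos one_mem_strictPeriods_SL,
          PowerSeries.coeff_smul]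
        rfl } with hL
  have hinj : Function.Injective L := by
    rw [← LinearMap.ker_eq_bot, LinearMap.ker_eq_bot']
    intro f hf
    have hM : IsMiller (4 * α + 6 * β) ℓ (ℓ + 1) f := by
      intro i hi
      rw [if_neg (by omega)]
      exact congrFun hf ⟨i, by omega⟩
    obtain ⟨a, ha, -, h2, -⟩ := miller_coeff α β hα hβ ℓ (ℓ + 1) f hM
    ext τ
    rw [ha τ]
    have : ∑ i ∈ Finset.range (ℓ + 1), a i *
        (E₆ τ ^ (2 * i) * ModularForm.discriminant τ ^ (ℓ - i)) = 0 := by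
      refine Finset.sum_eq_zero fun i hi => ?_
      rw [Finset.mem_range] at hi
      rw [h2 i (by omega) (by omega), zero_mul]
    rw [this, mul_zero]
    try rfl
  have hfin : Module.finrank ℂ (ModularForm 𝒮ℒ ((12 * ℓ + (4 * α + 6 * β) : ℕ) : ℤ)) =
      Module.finrank ℂ (Fin (ℓ + 1) → ℂ) := by
    rw [Module.finrank_fin_fun]
    apply Module.finrank_eq_of_rank_eq
    rw [dimension_level_one (12 * ℓ + (4 * α + 6 * β)) (by rw [Nat.even_iff]; omega)]
    split_ifs with h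
    · have : (12 * ℓ + (4 * α + 6 * β)) / 12 = ℓ + 1 := by
        unfold Nat.ModEq at h; interval_cases α <;> interval_cases β <;> omega
      rw [this]
    · have : (12 * ℓ + (4 * α + 6 * β)) / 12 = ℓ := by
        unfold Nat.ModEq at h; interval_cases α <;> interval_cases β <;> omega
      rw [this]
      try push_cast
      try rfl
  have hsurj : Function.Surjective L :=
    (LinearMap.injective_iff_surjective_of_finrank_eq_finrank hfin).mp hinj
  obtain ⟨f, hf⟩ := hsurj (fun i => if (i : ℕ) = m then 1 else 0)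
  refine ⟨f, fun i hi => congrFun hf ⟨i, by omega⟩, fun g hg => hinj ?_⟩
  rw [hf]
  funext i
  exact hg i (by omega)

/-- Positivity on the imaginary axis. -/
lemma sum_ne_zero (ℓ m : ℕ) (hm : m ≤ ℓ) (a : ℕ → ℂ)
    (h1 : ∀ i, m + i ≤ ℓ → ∃ r : ℝ, 0 < r ∧ a i = (r : ℂ)) (h2 : ∀ i ≤ ℓ, ℓ < m + i → a i = 0)
    {τ : ℍ} (hτ : τ.re = 0) :
    ∑ i ∈ Finset.range (ℓ + 1), a i *
        (E₆ τ ^ (2 * i) * ModularForm.discriminant τ ^ (ℓ - i)) ≠ 0 := by
  obtain ⟨δ, hδ, hδ'⟩ := disc_axis hτ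
  obtain ⟨-, h6⟩ := E6_axis hτ
  have h6' : E₆ τ = ((E₆ τ).re : ℂ) := Complex.ext (by simp) (by simp [h6])
  have h1' : ∀ i ∈ Finset.range (ℓ + 1), ∃ r : ℝ, 0 ≤ r ∧ (i = 0 → 0 < r) ∧
      a i * (E₆ τ ^ (2 * i) * ModularForm.discriminant τ ^ (ℓ - i)) = (r : ℂ) := by
    intro i hi
    rw [Finset.mem_range] at hi
    by_cases him : m + i ≤ ℓ
    · obtain ⟨r, hr, hr'⟩ := h1 i him
      refine ⟨r * ((E₆ τ).re ^ (2 * i) * δ ^ (ℓ - i)), ?_, ?_, ?_⟩
      · have : 0 ≤ (E₆ τ).re ^ (2 * i) := by rw [pow_mul]; positivity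
        positivity
      · rintro rfl
        simp only [mul_zero, pow_zero, one_mul, Nat.sub_zero]
        positivity
      · rw [hr', h6', hδ']; push_cast
        simp
    · refine ⟨0, le_rfl, fun h0 => absurd h0 (by omega), ?_⟩
      rw [h2 i (by omega) (by omega)]; simp
  choose! r hr hr0 hr' using h1'
  rw [Finset.sum_congr rfl hr']
  have : 0 < ∑ i ∈ Finset.range (ℓ + 1), r i :=
    Finset.sum_pos' hr ⟨0, by simp, hr0 0 (by simp) rfl⟩
  intro h0
  have h3 : ((∑ i ∈ Finset.range (ℓ + 1), r i : ℝ) : ℂ) = 0 := by push_cast; exact h0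
  have h4 : (∑ i ∈ Finset.range (ℓ + 1), r i : ℝ) = 0 := by exact_mod_cast h3
  exact this.ne' h4

/-- `j` is unbounded on the imaginary axis above `i`. -/
lemma jInv_unbounded (B : ℝ) : ∃ τ : ℍ, τ.re = 0 ∧ τ ≠ UpperHalfPlane.I ∧ B < ‖jInv τ‖ := by
  have h4 : Tendsto (E₄ : ℍ → ℂ) atImInfty (𝓝 1) := Pool.Agent.Y949.J.tendsto_E4
  have hΔ : Tendsto ModularForm.discriminant atImInfty (𝓝 0) := discriminant_isZeroAtImInfty
  have h5 : ∀ᶠ τ in atImInfty, 1 / 2 < ‖E₄ τ ^ 3‖ := by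
    have := (h4.pow 3).norm
    simp only [one_pow, norm_one] at this
    exact this.eventually (lt_mem_nhds (by norm_num))
  have h6 : ∀ᶠ τ in atImInfty, ‖ModularForm.discriminant τ‖ < 1 / (2 * (|B| + 1)) := by
    have := hΔ.norm
    simp only [norm_zero] at this
    exact this.eventually (gt_mem_nhds (by positivity))
  obtain ⟨A, hA⟩ := (UpperHalfPlane.atImInfty_mem _).mp (h5.and h6)
  set t : ℝ := max A 2 with ht
  have ht0 : 0 < t := lt_of_lt_of_le (by norm_num) (le_max_right A 2)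
  set τ : ℍ := ⟨Complex.I * t, by simpa using ht0⟩ with hτ
  have him : τ.im = t := by
    show (Complex.I * t : ℂ).im = t
    simp
  have hre : τ.re = 0 := by
    show (Complex.I * t : ℂ).re = 0
    simp
  obtain ⟨h7, h8⟩ := hA τ (by rw [him]; exact le_max_left _ _)
  refine ⟨τ, hre, ?_, ?_⟩
  · intro h
    have h9 := congrArg UpperHalfPlane.im h
    rw [him] at h9
    have h10 : (UpperHalfPlane.I : ℍ).im = 1 := by simp
    rw [h10] at h9
    have : (2 : ℝ) ≤ t := le_max_right A 2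
    linarith
  · unfold jInv
    rw [norm_div]
    have hd0 : 0 < ‖ModularForm.discriminant τ‖ := norm_pos_iff.mpr (discriminant_ne_zero τ)
    rw [lt_div_iff₀ hd0]
    calc B * ‖ModularForm.discriminant τ‖ ≤ |B| * ‖ModularForm.discriminant τ‖ :=
          mul_le_mul_of_nonneg_right (le_abs_self B) hd0.le
      _ ≤ (|B| + 1) * ‖ModularForm.discriminant τ‖ :=
          mul_le_mul_of_nonneg_right (by linarith) hd0.le
      _ ≤ (|B| + 1) * (1 / (2 * (|B| + 1))) :=
          mul_le_mul_of_nonneg_left h8.le (by positivity)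
      _ = 1 / 2 := by field_simp
      _ < _ := h7

/-- Two polynomials which agree at all `j(τ)`, `τ` on the imaginary axis, `τ ≠ i`, are equal. -/
lemma poly_unique (F G : Polynomial ℂ)
    (h : ∀ τ : ℍ, τ.re = 0 → τ ≠ UpperHalfPlane.I → F.eval (jInv τ) = G.eval (jInv τ)) : F = G := by
  by_contra hne
  have hd : F - G ≠ 0 := sub_ne_zero.mpr hne
  set S := (F - G).roots.toFinset with hS
  obtain ⟨τ, h1, h2, h3⟩ := jInv_unbounded (∑ x ∈ S, ‖x‖)
  have h4 : jInv τ ∈ S := by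
    rw [hS, Multiset.mem_toFinset, Polynomial.mem_roots hd, Polynomial.IsRoot.def,
      Polynomial.eval_sub, h τ h1 h2, sub_self]
  have h5 : ‖jInv τ‖ ≤ ∑ x ∈ S, ‖x‖ :=
    Finset.single_le_sum (f := fun x : ℂ => ‖x‖) (fun x _ => norm_nonneg x) h4
  linarith

/-- **Zeros of Miller basis forms on the imaginary axis.** -/
theorem result (k' ℓ m : ℕ)
    (hk' : k' = 0 ∨ k' = 4 ∨ k' = 6 ∨ k' = 8 ∨ k' = 10 ∨ k' = 14) (hm : m ≤ ℓ) :
    (∃! f : ModularForm 𝒮ℒ ((12 * ℓ + k' : ℕ) : ℤ), IsMiller k' ℓ m f) ∧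
    ∀ f : ModularForm 𝒮ℒ ((12 * ℓ + k' : ℕ) : ℤ), IsMiller k' ℓ m f →
      (∃! F : Polynomial ℂ, IsFaber k' ℓ f F) ∧
      (∀ F : Polynomial ℂ, IsFaber k' ℓ f F →
        F.Monic ∧ F.natDegree = ℓ - m ∧ ∀ x : ℝ, 1728 ≤ x → F.eval (x : ℂ) ≠ 0) ∧
      ∀ τ : ℍ, τ.re = 0 →
        (f τ = 0 ↔ τ = UpperHalfPlane.I ∧ (k' = 6 ∨ k' = 10 ∨ k' = 14)) := by
  obtain ⟨α, β, hα, hβ, hab⟩ : ∃ α β : ℕ, α ≤ 2 ∧ β ≤ 1 ∧ k' = 4 * α + 6 * β := by
    rcases hk' with h | h | h | h | h | h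
    · exact ⟨0, 0, by norm_num, by norm_num, by omega⟩
    · exact ⟨1, 0, by norm_num, by norm_num, by omega⟩
    · exact ⟨0, 1, by norm_num, by norm_num, by omega⟩
    · exact ⟨2, 0, by norm_num, by norm_num, by omega⟩
    · exact ⟨1, 1, by norm_num, by norm_num, by omega⟩
    · exact ⟨2, 1, by norm_num, by norm_num, by omega⟩
  subst hab
  refine ⟨miller_unique α β hα hβ ℓ m, fun f hf => ?_⟩
  obtain ⟨a, ha, hpos, hzero, htop⟩ := miller_coeff α β hα hβ ℓ m f hf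
  -- the Faber polynomial
  set F : Polynomial ℂ := ∑ i ∈ Finset.range (ℓ - m + 1),
    Polynomial.C (a i) * (Polynomial.X - Polynomial.C 1728) ^ i with hF
  have hFeval : ∀ x : ℂ, F.eval x = ∑ i ∈ Finset.range (ℓ - m + 1), a i * (x - 1728) ^ i := by
    intro x
    rw [hF, Polynomial.eval_finsetSum]
    refine Finset.sum_congr rfl fun i _ => ?_
    simp
  have hFaber : IsFaber (4 * α + 6 * β) ℓ f F := by
    intro τ
    rw [ha τ, Ek_eq α β hα hβ, hFeval]
    have hd := discriminant_ne_zero τ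
    have hj : jInv τ - 1728 = E₆ τ ^ 2 / ModularForm.discriminant τ := by
      unfold jInv
      have := discriminant_eq_E₄_cube_sub_E₆_sq τ
      field_simp
      rw [this]; ring
    have hsub : ∑ i ∈ Finset.range (ℓ + 1), a i *
        (E₆ τ ^ (2 * i) * ModularForm.discriminant τ ^ (ℓ - i)) =
        ∑ i ∈ Finset.range (ℓ - m + 1), a i *
        (E₆ τ ^ (2 * i) * ModularForm.discriminant τ ^ (ℓ - i)) := by
      symm
      apply Finset.sum_subset
      · intro i hi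
        rw [Finset.mem_range] at hi ⊢
        omega
      · intro i hi hi'
        rw [Finset.mem_range] at hi hi'
        rw [hzero i (by omega) (by omega), zero_mul]
    rw [hsub, mul_comm (ModularForm.discriminant τ ^ ℓ), mul_assoc (E₄ τ ^ α * E₆ τ ^ β),
      Finset.mul_sum (a := ModularForm.discriminant τ ^ ℓ)]
    congr 1
    refine Finset.sum_congr rfl fun i hi => ?_
    rw [Finset.mem_range] at hi
    rw [hj, div_pow, ← pow_mul]
    have h3 : ModularForm.discriminant τ ^ ℓ =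
        ModularForm.discriminant τ ^ (ℓ - i) * ModularForm.discriminant τ ^ i := by
      rw [← pow_add]; congr 1; omega
    rw [h3]
    field_simp
  have hEk0 : ∀ τ : ℍ, τ.re = 0 → τ ≠ UpperHalfPlane.I → Ek (4 * α + 6 * β) τ ≠ 0 := by
    intro τ h1 h2
    rw [Ek_eq α β hα hβ]
    refine mul_ne_zero (pow_ne_zero _ (E4_ne_zero h1)) (pow_ne_zero _ ?_)
    intro h3
    exact h2 ((E6_eq_zero_iff h1).mp h3)
  have huniq : ∀ G : Polynomial ℂ, IsFaber (4 * α + 6 * β) ℓ f G → G = F := by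
    intro G hG
    apply poly_unique
    intro τ h1 h2
    have h3 : ModularForm.discriminant τ ^ ℓ * Ek (4 * α + 6 * β) τ ≠ 0 :=
      mul_ne_zero (pow_ne_zero _ (discriminant_ne_zero τ)) (hEk0 τ h1 h2)
    exact mul_left_cancel₀ h3 ((hG τ).symm.trans (hFaber τ))
  refine ⟨⟨F, hFaber, huniq⟩, ?_, ?_⟩
  · intro G hG
    rw [huniq G hG]
    -- degree
    have hdeg : F.Monic ∧ F.natDegree = ℓ - m := by
      have h1 : F = (Polynomial.X - Polynomial.C 1728) ^ (ℓ - m) +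
          ∑ i ∈ Finset.range (ℓ - m),
            Polynomial.C (a i) * (Polynomial.X - Polynomial.C 1728) ^ i := by
        rw [hF, Finset.sum_range_succ, htop (ℓ - m) (by omega)]
        simp only [map_one, one_mul]
        ring
      have hmon : ((Polynomial.X - Polynomial.C (1728 : ℂ)) ^ (ℓ - m)).Monic :=
        (Polynomial.monic_X_sub_C _).pow _
      have hnd : ((Polynomial.X - Polynomial.C (1728 : ℂ)) ^ (ℓ - m)).natDegree = ℓ - m := by
        rw [(Polynomial.monic_X_sub_C (1728 : ℂ)).natDegree_pow, Polynomial.natDegree_X_sub_C, mul_one]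
      have hdegp : ((Polynomial.X - Polynomial.C (1728 : ℂ)) ^ (ℓ - m)).degree = ((ℓ - m : ℕ) : WithBot ℕ) := by
        rw [Polynomial.degree_eq_natDegree hmon.ne_zero, hnd]
      have hlt : (∑ i ∈ Finset.range (ℓ - m),
            Polynomial.C (a i) * (Polynomial.X - Polynomial.C (1728 : ℂ)) ^ i).degree <
          ((Polynomial.X - Polynomial.C (1728 : ℂ)) ^ (ℓ - m)).degree := by
        rw [hdegp]
        refine lt_of_le_of_lt (Polynomial.degree_sum_le _ _) ?_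
        rw [Finset.sup_lt_iff (WithBot.bot_lt_coe _)]
        intro i hi
        rw [Finset.mem_range] at hi
        refine lt_of_le_of_lt (Polynomial.degree_mul_le _ _) ?_
        have h4 : (Polynomial.C (a i)).degree ≤ 0 := Polynomial.degree_C_le
        have h5 : ((Polynomial.X - Polynomial.C (1728 : ℂ)) ^ i).degree = (i : WithBot ℕ) := by
          rw [Polynomial.degree_pow, Polynomial.degree_X_sub_C]; simp
        rw [h5]
        calc (Polynomial.C (a i)).degree + (i : WithBot ℕ) ≤ 0 + (i : WithBot ℕ) := by gcongr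
          _ = (i : WithBot ℕ) := zero_add _
          _ < ((ℓ - m : ℕ) : WithBot ℕ) := by exact_mod_cast hi
      rw [h1]
      refine ⟨hmon.add_of_left hlt, ?_⟩
      rw [Polynomial.natDegree_add_eq_left_of_degree_lt hlt, hnd]
    refine ⟨hdeg.1, hdeg.2, fun x hx => ?_⟩
    rw [hFeval]
    have h1' : ∀ i ∈ Finset.range (ℓ - m + 1), ∃ r : ℝ, 0 ≤ r ∧ (i = 0 → 0 < r) ∧
        a i * ((x : ℂ) - 1728) ^ i = (r : ℂ) := by
      intro i hi
      rw [Finset.mem_range] at hi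
      obtain ⟨r, hr, hr'⟩ := hpos i (by omega)
      refine ⟨r * (x - 1728) ^ i, mul_nonneg hr.le (pow_nonneg (by linarith) _), ?_, ?_⟩
      · rintro rfl; simpa using hr
      · rw [hr']; push_cast; rfl
    choose! r hr hr0 hr' using h1'
    rw [Finset.sum_congr rfl hr']
    have : 0 < ∑ i ∈ Finset.range (ℓ - m + 1), r i :=
      Finset.sum_pos' hr ⟨0, by simp, hr0 0 (by simp) rfl⟩
    intro h0
    have h3 : ((∑ i ∈ Finset.range (ℓ - m + 1), r i : ℝ) : ℂ) = 0 := by push_cast; exact h0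
    have h4 : (∑ i ∈ Finset.range (ℓ - m + 1), r i : ℝ) = 0 := by exact_mod_cast h3
    exact this.ne' h4
  · intro τ hτ
    rw [ha τ]
    have hs := sum_ne_zero ℓ m hm a hpos hzero hτ
    rw [mul_eq_zero, or_iff_left hs, mul_eq_zero, or_iff_right (pow_ne_zero _ (E4_ne_zero hτ))]
    constructor
    · intro h
      have h1 : E₆ τ = 0 := eq_zero_of_pow_eq_zero h
      refine ⟨(E6_eq_zero_iff hτ).mp h1, ?_⟩
      have hβ1 : β = 1 := by
        by_contra hne
        have : β = 0 := by omega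
        rw [this, pow_zero] at h
        exact one_ne_zero h
      interval_cases α <;> omega
    · rintro ⟨h1, h2⟩
      have hβ1 : β = 1 := by
        interval_cases α <;> omega
      rw [hβ1, pow_one]
      exact (E6_eq_zero_iff hτ).mpr h1

end Pool.Agent.Results.MP_e05153_nt.NoZerosImaginaryAxis
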